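import Pool.Agent.Lib.MP_fdcb14_pr.W.Interfaces
import Pool.Agent.Lib.MP_fdcb14_pr.W.Base

/-!
# Module LINE, part B: domination
-/

namespace Pool.Agent.Lib.MP_fdcb14_pr.H65

open Pool.Agent.Lib.MP_fdcb14_pr

variable {G : Type} [AddCommGroup G] {S : Finset G} {k : ℕ} {φ : G →+ ℤ} {g : G} {J : Finset ℕ}

theorem smul_inj (hL : LineData S φ g J) {i j : ℤ} (h : i • g = j • g) : i = j := by
  have h1 : (i - j) • g = 0 := by rw [sub_smul, h, sub_self]
  have := hL.free _ h1
  omega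

theorem phi_smul (hL : LineData S φ g J) (i : ℤ) : φ (i • g) = 0 := by
  rw [map_zsmul, hL.phig, smul_zero]

theorem zero_mem' (hS : Wind S k) (hL : LineData S φ g J) : (0 : G) ∈ S := by
  apply hS.zero_mem
  intro s hs h
  have h1 : φ s = 0 := by
    have h2 : φ s = -φ s := by
      conv_lhs => rw [h]
      rw [map_neg]
    omega
  obtain ⟨j, hj, _⟩ := hL.ker s hs h1
  have h3 : (2 * j) • g = 0 := by
    rw [two_mul, add_smul, ← hj]
    nth_rw 2 [h]
    exact add_neg_cancel s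
  have := hL.free _ h3
  have hj0 : j = 0 := by omega
  rw [hj, hj0, zero_smul]

/-- the steps on the line -/
def JZ (J : Finset ℕ) : Finset ℤ :=
  insert 0 (J.image (fun j : ℕ => (j : ℤ)) ∪ J.image (fun j : ℕ => -(j : ℤ)))

theorem mem_JZ {J : Finset ℕ} {j : ℤ} :
    j ∈ JZ J ↔ j = 0 ∨ (∃ a ∈ J, (a : ℤ) = j) ∨ ∃ a ∈ J, -(a : ℤ) = j := by
  simp only [JZ, Finset.mem_insert, Finset.mem_union, Finset.mem_image]

theorem card_JZ {J : Finset ℕ} (hpos : ∀ j ∈ J, 1 ≤ j) : (JZ J).card = 2 * J.card + 1 := by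
  unfold JZ
  rw [Finset.card_insert_of_notMem, Finset.card_union_of_disjoint,
    Finset.card_image_of_injective _ (fun a b h => by simpa using h),
    Finset.card_image_of_injective _ (fun a b h => by simpa using h)]
  · omega
  · rw [Finset.disjoint_left]
    intro x h1 h2
    rw [Finset.mem_image] at h1 h2
    obtain ⟨a, ha, rfl⟩ := h1
    obtain ⟨b, hb, h⟩ := h2
    have := hpos a ha
    omega
  · intro h
    rw [Finset.mem_union, Finset.mem_image, Finset.mem_image] at h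
    rcases h with ⟨a, ha, h⟩ | ⟨a, ha, h⟩
    · have := hpos a ha
      omega
    · have := hpos a ha
      omega

open Classical in
theorem ker_eq (hS : Wind S k) (hL : LineData S φ g J) :
    S.filter (fun s => φ s = 0) = (JZ J).image (fun j : ℤ => j • g) := by
  ext s
  rw [Finset.mem_filter, Finset.mem_image]
  constructor
  · rintro ⟨hs, h0⟩
    obtain ⟨j, hj, h⟩ := hL.ker s hs h0
    refine ⟨j, mem_JZ.2 ?_, hj.symm⟩
    rcases h with h | h
    · exact Or.inl h
    · rcases Int.natAbs_eq j with h' | h'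
      · exact Or.inr (Or.inl ⟨_, h, h'.symm⟩)
      · exact Or.inr (Or.inr ⟨_, h, h'.symm⟩)
  · rintro ⟨j, hj, rfl⟩
    refine ⟨?_, phi_smul hL j⟩
    rcases mem_JZ.1 hj with rfl | ⟨a, ha, rfl⟩ | ⟨a, ha, rfl⟩
    · rw [zero_smul]; exact zero_mem' hS hL
    · exact hL.mem a ha
    · rw [neg_smul]; exact hS.symm _ (hL.mem a ha)

open Classical in
theorem neg_card (hS : Wind S k) (hL : LineData S φ g J) :
    (S.filter (fun s => φ s < 0)).card + J.card = k := by
  have h := card_split hS.symm φ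
  have h1 : (S.filter (fun s => φ s = 0)).card = 2 * J.card + 1 := by
    rw [ker_eq hS hL, Finset.card_image_of_injective _ (fun a b h => smul_inj hL h),
      card_JZ hL.pos]
  rw [hS.card, h1] at h
  omega

open Classical in
theorem cnt_HH (hS : Wind S k) (hL : LineData S φ g J) (D : Set ℤ) (i : ℤ) :
    cnt S (HH φ g D) (i • g) = (S.filter (fun s => φ s < 0)).card +
      ((JZ J).filter (fun j => i + j ∈ D)).card := by
  rw [← Finset.card_image_of_injective ((JZ J).filter (fun j => i + j ∈ D))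
    (fun a b h => smul_inj hL h : Function.Injective (fun j : ℤ => j • g)),
    ← Finset.card_union_of_disjoint]
  · unfold cnt
    congr 1
    ext s
    simp only [Finset.mem_filter, Finset.mem_union, Finset.mem_image, HH, Set.mem_ofPred_eq,
      map_add, phi_smul hL, zero_add]
    constructor
    · rintro ⟨hs, h | ⟨i', hi', h⟩⟩
      · exact Or.inl ⟨hs, h⟩
      · have h0 : φ s = 0 := by
          have := congrArg φ h
          rw [map_add, phi_smul hL, phi_smul hL, zero_add] at this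
          exact this
        have hs' : s ∈ S.filter (fun s => φ s = 0) := Finset.mem_filter.2 ⟨hs, h0⟩
        rw [ker_eq hS hL, Finset.mem_image] at hs'
        obtain ⟨j, hj, rfl⟩ := hs'
        have h2 : i + j = i' := by
          apply smul_inj hL
          rw [add_smul]; exact h
        exact Or.inr ⟨j, ⟨hj, h2 ▸ hi'⟩, rfl⟩
    · rintro (⟨hs, h⟩ | ⟨j, ⟨hj, h⟩, rfl⟩)
      · exact ⟨hs, Or.inl h⟩
      · have hs' : j • g ∈ S.filter (fun s => φ s = 0) := by
          rw [ker_eq hS hL]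
          exact Finset.mem_image_of_mem _ hj
        exact ⟨(Finset.mem_filter.1 hs').1, Or.inr ⟨i + j, h, (add_smul _ _ _).symm⟩⟩
  · rw [Finset.disjoint_left]
    intro s h1 h2
    rw [Finset.mem_filter] at h1
    rw [Finset.mem_image] at h2
    obtain ⟨j, _, rfl⟩ := h2
    have := phi_smul hL j
    omega

theorem cnt_HH_notMem (hS : Wind S k) (hL : LineData S φ g J) {D : Set ℤ} (hD : IsId J D) {i : ℤ}
    (hi : i ∉ D) : cnt S (HH φ g D) (i • g) ≤ k := by
  classical
  rw [cnt_HH hS hL, ← neg_card hS hL]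
  apply Nat.add_le_add_left
  rw [← Finset.card_image_of_injective J (fun a b h => by simpa using h :
    Function.Injective (fun j : ℕ => -(j : ℤ)))]
  apply Finset.card_le_card
  intro j hj
  rw [Finset.mem_filter] at hj
  rw [Finset.mem_image]
  rcases mem_JZ.1 hj.1 with rfl | ⟨a, ha, rfl⟩ | ⟨a, ha, rfl⟩
  · rw [add_zero] at hj; exact absurd hj.2 hi
  · have := hD.2.2 _ hj.2 a ha
    rw [add_sub_cancel_right] at this
    exact absurd this hi
  · exact ⟨a, ha, rfl⟩

theorem cnt_HH_notMin (hS : Wind S k) (hL : LineData S φ g J) {D : Set ℤ} (hD : IsId J D) {i : ℤ}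
    (hi : i ∉ D) (hm : i ∉ MinC J D) : cnt S (HH φ g D) (i • g) + 1 ≤ k := by
  classical
  have h1 : ∃ j ∈ J, i - (j : ℤ) ∉ D := by
    by_contra hcon
    push Not at hcon
    exact hm ⟨hi, hcon⟩
  obtain ⟨b, hb, hb'⟩ := h1
  rw [cnt_HH hS hL, ← neg_card hS hL, add_assoc]
  apply Nat.add_le_add_left
  rw [← Finset.card_image_of_injective J (fun a b h => by simpa using h :
    Function.Injective (fun j : ℕ => -(j : ℤ)))]
  apply Finset.card_lt_card
  rw [Finset.ssubset_iff_subset_ne]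
  refine ⟨?_, ?_⟩
  · intro j hj
    rw [Finset.mem_filter] at hj
    rw [Finset.mem_image]
    rcases mem_JZ.1 hj.1 with rfl | ⟨a, ha, rfl⟩ | ⟨a, ha, rfl⟩
    · rw [add_zero] at hj; exact absurd hj.2 hi
    · have := hD.2.2 _ hj.2 a ha
      rw [add_sub_cancel_right] at this
      exact absurd this hi
    · exact ⟨a, ha, rfl⟩
  · intro heq
    have h2 : -(b : ℤ) ∈ (JZ J).filter (fun j => i + j ∈ D) := by
      rw [heq]
      exact Finset.mem_image_of_mem _ hb
    rw [Finset.mem_filter] at h2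
    exact hb' (by rw [sub_eq_add_neg]; exact h2.2)

theorem cnt_HH_max (hS : Wind S k) (hL : LineData S φ g J) {D : Set ℤ} {i : ℤ}
    (hm : i ∈ MaxC J D) : cnt S (HH φ g D) (i • g) ≤ k + 1 := by
  classical
  rw [cnt_HH hS hL, ← neg_card hS hL, add_assoc]
  apply Nat.add_le_add_left
  rw [← Finset.card_image_of_injective J (fun a b h => by simpa using h :
    Function.Injective (fun j : ℕ => -(j : ℤ)))]
  refine le_trans (Finset.card_le_card (t := insert 0 (J.image (fun j : ℕ => -(j : ℤ)))) ?_)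
    (Finset.card_insert_le _ _)
  intro j hj
  rw [Finset.mem_filter] at hj
  rw [Finset.mem_insert, Finset.mem_image]
  rcases mem_JZ.1 hj.1 with rfl | ⟨a, ha, rfl⟩ | ⟨a, ha, rfl⟩
  · exact Or.inl rfl
  · exact absurd hj.2 (hm.2 a ha)
  · exact Or.inr ⟨a, ha, rfl⟩

/-- The sites seen from the line. -/
theorem act_seen (hL : LineData S φ g J) {D : Set ℤ} {η' : G → Err} {Y : Set G} {i : ℤ}
    (hY : ∀ s ∈ S, i • g + s ∈ Y → (φ s < 0 ∨ ∃ i' ∈ D, i • g + s = i' • g)) :
    ∀ s ∈ S, i • g + s ∈ act η' Y →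
      i • g + s ∈ {w | w ∈ HH φ g D ∧ η' w ≠ Err.zero} ∪ {w | w ∉ HH φ g D ∧ η' w = Err.one} := by
  intro s hs h
  by_cases hw : i • g + s ∈ HH φ g D
  · left
    refine ⟨hw, ?_⟩
    rcases h with h | h
    · rw [h]; decide
    · exact h.2
  · right
    refine ⟨hw, ?_⟩
    rcases h with h | h
    · exact h
    · exfalso
      apply hw
      rcases hY s hs h.1 with h1 | h1
      · left
        rw [map_add, phi_smul hL, zero_add]
        exact h1
      · right; exact h1

theorem exists_of_cnt_pos {X : Set G} {v : G} (h : 1 ≤ cnt S X v) : ∃ s ∈ S, v + s ∈ X := by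
  classical
  unfold cnt at h
  obtain ⟨s, hs⟩ := Finset.card_pos.1 h
  rw [Finset.mem_filter] at hs
  exact ⟨s, hs⟩

theorem dom1 (hS : Wind S k) (hL : LineData S φ g J) {D : Set ℤ} (hD : IsId J D)
    {η η' : G → Err} {Y : Set G} (hle : Le η' η) {i : ℤ}
    (hY : ∀ s ∈ S, i • g + s ∈ Y → (φ s < 0 ∨ ∃ i' ∈ D, i • g + s = i' • g))
    (h1 : cnt S (ones η') (i • g) ≤ 1) (h2 : k + 1 ≤ cnt S (act η' Y) (i • g)) (hi : i ∉ D) :
    i ∈ MinC J D ∧ ∃ w, w ∉ HH φ g D ∧ w - i • g ∈ S ∧ η w = Err.one := by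
  have h3 : cnt S (act η' Y) (i • g) ≤ cnt S {w | w ∈ HH φ g D ∧ η' w ≠ Err.zero} (i • g) +
      cnt S {w | w ∉ HH φ g D ∧ η' w = Err.one} (i • g) :=
    le_trans (cnt_mono' S _ (act_seen hL hY)) (cnt_union_le S _ _ _)
  have h4 : cnt S {w | w ∈ HH φ g D ∧ η' w ≠ Err.zero} (i • g) ≤ cnt S (HH φ g D) (i • g) :=
    cnt_mono S (fun w hw => hw.1) _
  have h5 : cnt S {w | w ∉ HH φ g D ∧ η' w = Err.one} (i • g) ≤ cnt S (ones η') (i • g) :=
    cnt_mono S (fun w hw => hw.2) _
  have h6 := cnt_HH_notMem hS hL hD hi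
  constructor
  · by_contra hm
    have h7 := cnt_HH_notMin hS hL hD hi hm
    omega
  · have h8 : 1 ≤ cnt S {w | w ∉ HH φ g D ∧ η' w = Err.one} (i • g) := by omega
    obtain ⟨s, hs, hw⟩ := exists_of_cnt_pos h8
    refine ⟨i • g + s, hw.1, by simpa using hs, hle.1 _ hw.2⟩

theorem dom2 (hS : Wind S k) (hL : LineData S φ g J) {D : Set ℤ}
    {η η' : G → Err} {Y : Set G} (hle : Le η' η) {i : ℤ}
    (hY : ∀ s ∈ S, i • g + s ∈ Y → (φ s < 0 ∨ ∃ i' ∈ D, i • g + s = i' • g))
    (h2 : k + 1 ≤ cnt S (act η' Y) (i • g)) (hi : i ∈ MaxC J D) {w : G} (hw : w ∈ HH φ g D)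
    (hwS : w - i • g ∈ S) (hη : η w = Err.zero) :
    ∃ w', w' ≠ w ∧ w' - i • g ∈ S ∧ η w' = Err.one := by
  classical
  have hη' : η' w = Err.zero := hle.2 w hη
  have h3 : cnt S (act η' Y) (i • g) ≤ cnt S {w | w ∈ HH φ g D ∧ η' w ≠ Err.zero} (i • g) +
      cnt S {w | w ∉ HH φ g D ∧ η' w = Err.one} (i • g) :=
    le_trans (cnt_mono' S _ (act_seen hL hY)) (cnt_union_le S _ _ _)
  have h4 : cnt S {w | w ∈ HH φ g D ∧ η' w ≠ Err.zero} (i • g) + 1 ≤
      cnt S (HH φ g D) (i • g) := by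
    unfold cnt
    apply Finset.card_lt_card
    rw [Finset.ssubset_iff_subset_ne]
    refine ⟨?_, ?_⟩
    · intro s hs
      simp only [Finset.mem_filter] at hs ⊢
      exact ⟨hs.1, hs.2.1⟩
    · intro heq
      have h5 : w - i • g ∈ S.filter (fun s => i • g + s ∈ HH φ g D) := by
        simp only [Finset.mem_filter]
        exact ⟨hwS, by rw [add_sub_cancel]; exact hw⟩
      rw [← heq] at h5
      simp only [Finset.mem_filter] at h5
      have h6 := h5.2.2
      rw [add_sub_cancel] at h6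
      exact h6 hη'
  have h5 := cnt_HH_max hS hL hi
  have h8 : 1 ≤ cnt S {w | w ∉ HH φ g D ∧ η' w = Err.one} (i • g) := by omega
  obtain ⟨s, hs, hw'⟩ := exists_of_cnt_pos h8
  refine ⟨i • g + s, ?_, by simpa using hs, hle.1 _ hw'.2⟩
  intro h
  exact hw'.1 (h ▸ hw)

end Pool.Agent.Lib.MP_fdcb14_pr.H65
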