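import Pool.Agent.Lib.MP_fdcb14_pr.W.H65.LineA
import Pool.Agent.Lib.MP_fdcb14_pr.W.H65.LineB

/-!
# Module LINE: the state machine of a line
-/

namespace Pool.Agent.Lib.MP_fdcb14_pr.H65

open Pool.Agent.Lib.MP_fdcb14_pr

variable {G : Type} [AddCommGroup G]

/-- the errors in the zone -/
def Er (S : Finset G) (g : G) (J : Finset ℕ) (D : Set ℤ) (η : G → Err) : Set G :=
  {w | w ∈ Zone S g J D ∧ η w ≠ Err.keep}

/-- states in which the machine works -/
def Good (J : Finset ℕ) (h : Set ℤ → ℝ) (C3 : ℝ) (m : ℕ) (D : Set ℤ) : Prop :=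
  (IsId J D ∧ h D < C3) ∧ ∃ i ∈ D, -(m : ℤ) < i

open Classical in
/-- the new state before the upper cutoff -/
noncomputable def nw (S : Finset G) (φ : G →+ ℤ) (g : G) (J : Finset ℕ) (D : Set ℤ)
    (η : G → Err) : Set ℤ :=
  if Er S g J D η = ∅ then D
  else if h : ∃ w, Er S g J D η = {w} then
    (if η h.choose = Err.one then Tp S φ g J h.choose D else Tm S φ g J h.choose D)
  else Set.Iic 0

open Classical in
/-- the machine -/
noncomputable def ud (S : Finset G) (φ : G →+ ℤ) (g : G) (J : Finset ℕ) (h : Set ℤ → ℝ) (C3 : ℝ)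
    (m : ℕ) (D : Set ℤ) (η : G → Err) : Set ℤ :=
  if Good J h C3 m D ∧ IsId J (nw S φ g J D η) ∧ h (nw S φ g J D η) < C3 then nw S φ g J D η
  else Set.Iic 0

variable {S : Finset G} {k : ℕ} {φ : G →+ ℤ} {g : G} {J : Finset ℕ}

theorem nw_single {D : Set ℤ} {η : G → Err} {w : G} (h : Er S g J D η = {w}) :
    nw S φ g J D η = if η w = Err.one then Tp S φ g J w D else Tm S φ g J w D := by
  have h0 : Er S g J D η ≠ ∅ := by rw [h]; exact Set.singleton_ne_empty w
  have h1 : ∃ w, Er S g J D η = {w} := ⟨w, h⟩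
  have h2 : h1.choose = w := by
    have h3 : ({w} : Set G) = {h1.choose} := h.symm.trans h1.choose_spec
    exact (Set.singleton_eq_singleton_iff.1 h3).symm
  unfold nw
  rw [if_neg h0, dif_pos h1, h2]

theorem nw_empty {D : Set ℤ} {η : G → Err} (h : Er S g J D η = ∅) : nw S φ g J D η = D := by
  unfold nw
  rw [if_pos h]

theorem nw_two {D : Set ℤ} {η : G → Err} (h : Er S g J D η ≠ ∅)
    (h1 : ¬ ∃ w, Er S g J D η = {w}) : nw S φ g J D η = Set.Iic 0 := by
  unfold nw
  rw [if_neg h, dif_neg h1]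

theorem nw_congr {D : Set ℤ} {η η' : G → Err} (h : ∀ w ∈ Zone S g J D, η w = η' w) :
    nw S φ g J D η = nw S φ g J D η' := by
  have hE : Er S g J D η = Er S g J D η' := by
    ext w
    constructor
    · rintro ⟨h1, h2⟩
      exact ⟨h1, by rw [← h w h1]; exact h2⟩
    · rintro ⟨h1, h2⟩
      exact ⟨h1, by rw [h w h1]; exact h2⟩
  by_cases h0 : Er S g J D η = ∅
  · rw [nw_empty h0, nw_empty (hE ▸ h0)]
  · by_cases h1 : ∃ w, Er S g J D η = {w}
    · obtain ⟨w, hw⟩ := h1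
      have hwz : w ∈ Zone S g J D := by
        have : w ∈ Er S g J D η := by rw [hw]; exact Set.mem_singleton w
        exact this.1
      rw [nw_single hw, nw_single (hE ▸ hw), h w hwz]
    · rw [nw_two h0 h1, nw_two (hE ▸ h0) (hE ▸ h1)]

theorem isId_Iic (hpos : ∀ j ∈ J, 1 ≤ j) : IsId J (Set.Iic 0) := by
  refine ⟨⟨0, by simp⟩, ⟨1, by simp⟩, ?_⟩
  intro i hi j hj
  have := hpos j hj
  simp only [Set.mem_Iic] at hi ⊢
  omega

/-- domination -/
theorem ud_dom (hS : Wind S k) (hL : LineData S φ g J) (h : Set ℤ → ℝ) (C3 : ℝ) (m : ℕ)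
    (D : Set ℤ) (η η' : G → Err) (Y : Set G) (hle : Le η' η)
    (hY : ∀ (i : ℤ), ∀ s ∈ S, i • g + s ∈ Y → (φ s < 0 ∨ ∃ i' ∈ D, i • g + s = i' • g))
    (i : ℤ) (hi : i ≤ 0) (h1 : cnt S (ones η') (i • g) ≤ 1)
    (h2 : k + 1 ≤ cnt S (act η' Y) (i • g)) : i ∈ ud S φ g J h C3 m D η := by
  unfold ud
  by_cases hG : Good J h C3 m D ∧ IsId J (nw S φ g J D η) ∧ h (nw S φ g J D η) < C3
  swap
  · rw [if_neg hG]; exact hi
  rw [if_pos hG]
  have hD : IsId J D := hG.1.1.1
  by_cases h0 : Er S g J D η = ∅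
  · rw [nw_empty h0]
    by_contra hiD
    obtain ⟨hm, w, hw1, hw2, hw3⟩ := dom1 hS hL hD hle (hY i) h1 h2 hiD
    have : w ∈ Er S g J D η := ⟨⟨i, Or.inl hm, hw2⟩, by rw [hw3]; decide⟩
    rw [h0] at this
    exact this
  · by_cases h3 : ∃ w, Er S g J D η = {w}
    · obtain ⟨w, hw⟩ := h3
      rw [nw_single hw]
      by_cases hiD : i ∈ D
      · by_cases hone : η w = Err.one
        · rw [if_pos hone]
          exact Or.inl hiD
        · rw [if_neg hone]
          refine ⟨hiD, ?_⟩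
          rintro ⟨a1, a2, a3⟩
          have hwE : w ∈ Er S g J D η := by rw [hw]; exact Set.mem_singleton w
          have hz : η w = Err.zero := by
            have := hwE.2
            cases h : η w
            · exact absurd h this
            · rfl
            · exact absurd h hone
          obtain ⟨w', b1, b2, b3⟩ := dom2 hS hL hle (hY i) h2 a2 a1 a3 hz
          have : w' ∈ Er S g J D η := ⟨⟨i, Or.inr a2, b2⟩, by rw [b3]; decide⟩
          rw [hw] at this
          exact b1 this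
      · obtain ⟨hm, w', hw1, hw2, hw3⟩ := dom1 hS hL hD hle (hY i) h1 h2 hiD
        have : w' ∈ Er S g J D η := ⟨⟨i, Or.inl hm, hw2⟩, by rw [hw3]; decide⟩
        rw [hw] at this
        have hww : w' = w := this
        subst hww
        rw [if_pos hw3]
        exact Or.inr ⟨hw1, hm, hw2⟩
    · rw [nw_two h0 h3]
      exact hi

/-- the formula for the Lyapunov function -/
noncomputable def ff (h q : Set ℤ → ℝ) (C A M : ℝ) (D : Set ℤ) : ℝ :=
  A * (h D + M) - (h D + M) ^ 2 - q D + C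

open Classical in
/-- the Lyapunov function -/
noncomputable def Gfun (J : Finset ℕ) (h q : Set ℤ → ℝ) (C A M C3 V : ℝ) (D : Set ℤ) : ℝ :=
  if IsId J D ∧ h D < C3 then max 0 (ff h q C A M D) else V

theorem ff_bounds {h q : Set ℤ → ℝ} {C A M Y : ℝ} {D : Set ℤ} (hC : 0 ≤ C) (hq : |q D| ≤ C)
    (hA : 2 * Y + 2 * C ≤ A) (h0 : 0 ≤ h D + M) (h1 : h D + M ≤ Y) :
    0 ≤ ff h q C A M D ∧ ff h q C A M D ≤ A * Y + 2 * C := by
  rw [abs_le] at hq
  unfold ff
  constructor
  · nlinarith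
  · nlinarith

theorem ff_le {h q : Set ℤ → ℝ} {C A M Y : ℝ} {D : Set ℤ} (hC : 0 ≤ C) (hq : |q D| ≤ C)
    (hY : 0 ≤ Y) (hA : 2 * Y + 2 * C ≤ A) (h1 : h D + M ≤ Y) :
    ff h q C A M D ≤ A * Y + 2 * C := by
  by_cases h0 : 0 ≤ h D + M
  · exact (ff_bounds hC hq hA h0 h1).2
  · push Not at h0
    rw [abs_le] at hq
    unfold ff
    nlinarith [mul_nonneg (by linarith : (0 : ℝ) ≤ A) hY,
      mul_nonneg (by linarith : (0 : ℝ) ≤ A) (by linarith : 0 ≤ -(h D + M))]

theorem LL_eq {D : Set ℤ} (W : Finset G)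
    (hW : ∀ w, w ∉ W → Tp S φ g J w D = D ∧ Tm S φ g J w D = D) (f : Set ℤ → ℝ) :
    LL S φ g J f D = ∑ w ∈ W, ((f (Tp S φ g J w D) - f D) + (f (Tm S φ g J w D) - f D)) := by
  unfold LL
  apply finsum_eq_sum_of_support_subset
  intro w hw
  by_contra hwW
  have := hW w (by simpa using hwW)
  rw [Function.mem_support] at hw
  apply hw
  rw [this.1, this.2]
  ring

theorem LL_ff {D : Set ℤ} (W : Finset G)
    (hW : ∀ w, w ∉ W → Tp S φ g J w D = D ∧ Tm S φ g J w D = D) {h q : Set ℤ → ℝ}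
    {C A M lam : ℝ} (h1 : LL S φ g J h D = 0)
    (h2 : LL S φ g J (fun D => h D ^ 2 + q D) D = lam) :
    ∑ w ∈ W, ((ff h q C A M (Tp S φ g J w D) - ff h q C A M D) +
      (ff h q C A M (Tm S φ g J w D) - ff h q C A M D)) = -lam := by
  rw [LL_eq W hW] at h1 h2
  have e : ∀ w ∈ W, ((ff h q C A M (Tp S φ g J w D) - ff h q C A M D) +
      (ff h q C A M (Tm S φ g J w D) - ff h q C A M D)) =
      (A - 2 * M) * ((h (Tp S φ g J w D) - h D) + (h (Tm S φ g J w D) - h D)) -
      (((h (Tp S φ g J w D)) ^ 2 + q (Tp S φ g J w D) - (h D ^ 2 + q D)) +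
        ((h (Tm S φ g J w D)) ^ 2 + q (Tm S φ g J w D) - (h D ^ 2 + q D))) := by
    intro w _
    unfold ff
    ring
  rw [Finset.sum_congr rfl e, Finset.sum_sub_distrib, ← Finset.mul_sum, h1, h2]
  ring

theorem ff_cl_le {h q : Set ℤ → ℝ} {C A M Y C3 : ℝ} {D D0 : Set ℤ} (hC : 0 ≤ C)
    (hq : |q D| ≤ C) (hq0 : |q D0| ≤ C) (hA : 2 * Y + 2 * C ≤ A) (h1 : h D + M ≤ Y)
    (h2 : h D0 + M ≤ Y) (h3 : h D0 + 1 ≤ C3) (h4 : C3 ≤ h D) :
    ff h q C A M D0 ≤ ff h q C A M D := by
  rw [abs_le] at hq hq0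
  unfold ff
  have e1 : 1 ≤ h D - h D0 := by linarith
  have e2 : 2 * C ≤ A - (h D + M) - (h D0 + M) := by linarith
  have e3 : 2 * C ≤ (h D - h D0) * (A - (h D + M) - (h D0 + M)) := by nlinarith
  nlinarith

theorem Gfun_eq {h q : Set ℤ → ℝ} {C A M C3 V : ℝ} {D : Set ℤ} (hD : IsId J D) (h3 : h D < C3)
    (hf : 0 ≤ ff h q C A M D) : Gfun J h q C A M C3 V D = ff h q C A M D := by
  unfold Gfun
  rw [if_pos ⟨hD, h3⟩, max_eq_right hf]

theorem drift {h q : Set ℤ → ℝ} {C A M Y C3 lam ε V : ℝ} {m : ℕ} {D : Set ℤ} {Z W : Finset G}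
    (hpos : ∀ j ∈ J, 1 ≤ j) (hG : Good J h C3 m D)
    (hId : ∀ w, IsId J (Tp S φ g J w D) ∧ IsId J (Tm S φ g J w D))
    (hq : ∀ D, IsId J D → |q D| ≤ C) (hC : 0 ≤ C) (hA : 2 * Y + 2 * C ≤ A)
    (y0 : 0 ≤ h D + M) (y1 : h D + M ≤ Y)
    (yp : ∀ w, 0 ≤ h (Tp S φ g J w D) + M ∧ h (Tp S φ g J w D) + M ≤ Y)
    (ym : ∀ w, 0 ≤ h (Tm S φ g J w D) + M ∧ h (Tm S φ g J w D) + M ≤ Y)
    (c0 : 0 ≤ h (Set.Iic 0) + M) (c1 : h (Set.Iic 0) + M ≤ Y) (c2 : h (Set.Iic 0) + 1 ≤ C3)
    (hZone : ∀ w, w ∉ Zone S g J D → Tp S φ g J w D = D ∧ Tm S φ g J w D = D)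
    (hW : ∀ w, w ∈ W ↔ w ∈ Zone S g J D) (hWZ : W ⊆ Z)
    (L1 : LL S φ g J h D = 0) (L2 : LL S φ g J (fun D => h D ^ 2 + q D) D = lam)
    (ε0 : 0 ≤ ε) (ε1 : ε ≤ 1 / 2) :
    Ex ε Z (fun η => Gfun J h q C A M C3 V (ud S φ g J h C3 m D η)) ≤
      ff h q C A M D - ε * lam + (3 / 2 * (A * Y + 2 * C)) * ((W.card : ℝ) ^ 2 * (4 * ε ^ 2)) := by
  have hD : IsId J D := hG.1.1
  have hcl : IsId J (Set.Iic (0 : ℤ)) := isId_Iic hpos
  have bD := ff_bounds (A := A) (M := M) (Y := Y) hC (hq D hD) hA y0 y1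
  have bcl := ff_bounds (A := A) (M := M) (Y := Y) hC (hq _ hcl) hA c0 c1
  have Gcl : Gfun J h q C A M C3 V (Set.Iic 0) = ff h q C A M (Set.Iic 0) :=
    Gfun_eq hcl (by linarith) bcl.1
  have hB : 0 ≤ A * Y + 2 * C := bD.1.trans bD.2
  -- the value after a transition to an ideal `D'`
  have key : ∀ D' η, IsId J D' → 0 ≤ h D' + M → h D' + M ≤ Y → nw S φ g J D η = D' →
      Gfun J h q C A M C3 V (ud S φ g J h C3 m D η) ≤ ff h q C A M D' := by
    intro D' η h1 h2 h3 h4
    have bD' := ff_bounds (A := A) (M := M) (Y := Y) hC (hq D' h1) hA h2 h3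
    by_cases hlt : h D' < C3
    · have : ud S φ g J h C3 m D η = D' := by
        unfold ud
        rw [h4, if_pos ⟨hG, h1, hlt⟩]
      rw [this, Gfun_eq h1 hlt bD'.1]
    · have : ud S φ g J h C3 m D η = Set.Iic 0 := by
        unfold ud
        rw [h4, if_neg (fun hcon => hlt hcon.2.2)]
      rw [this, Gcl]
      push Not at hlt
      exact ff_cl_le hC (hq D' h1) (hq _ hcl) hA h3 c1 c2 hlt
  have hmain := ex_le ε0 ε1 Z W hWZ (ff h q C A M D) (3 / 2 * (A * Y + 2 * C)) (by linarith)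
    (fun w => ff h q C A M (Tp S φ g J w D) - ff h q C A M D)
    (fun w => ff h q C A M (Tm S φ g J w D) - ff h q C A M D)
    (fun η => Gfun J h q C A M C3 V (ud S φ g J h C3 m D η)) ?_
  · have hsum := LL_ff (A := A) (M := M) (C := C) W (fun w hw => hZone w (fun h => hw ((hW w).2 h)))
      L1 L2
    rw [hsum] at hmain
    linarith
  · intro η
    by_cases h0 : Er S g J D η = ∅
    · -- no error
      have hk : ∀ w ∈ W, η w = Err.keep := by
        intro w hw
        by_contra hcon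
        have : w ∈ Er S g J D η := ⟨(hW w).1 hw, hcon⟩
        rw [h0] at this
        exact this
      have e1 := key D η hD y0 y1 (nw_empty h0)
      have e2 : ∑ w ∈ W, dl (ff h q C A M (Tp S φ g J w D) - ff h q C A M D)
          (ff h q C A M (Tm S φ g J w D) - ff h q C A M D) (η w) = 0 := by
        apply Finset.sum_eq_zero
        intro w hw
        rw [hk w hw]
        rfl
      have e3 : ∑ w ∈ W, bad (η w) = 0 := by
        apply Finset.sum_eq_zero
        intro w hw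
        rw [hk w hw]
        rfl
      rw [e2, e3]
      linarith
    · by_cases h1 : ∃ w, Er S g J D η = {w}
      · -- one error
        obtain ⟨w, hw⟩ := h1
        have hwE : w ∈ Er S g J D η := by rw [hw]; exact Set.mem_singleton w
        have hwW : w ∈ W := (hW w).2 hwE.1
        have hk : ∀ w' ∈ W, w' ≠ w → η w' = Err.keep := by
          intro w' hw' hne
          by_contra hcon
          have : w' ∈ Er S g J D η := ⟨(hW w').1 hw', hcon⟩
          rw [hw] at this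
          exact hne this
        have e3 : ∑ w' ∈ W, bad (η w') = 1 := by
          rw [Finset.sum_eq_single w]
          · have := hwE.2
            cases hη : η w
            · exact absurd hη this
            · rfl
            · rfl
          · intro w' hw' hne
            rw [hk w' hw' hne]
            rfl
          · intro hcon; exact absurd hwW hcon
        have e2 : ∑ w ∈ W, dl (ff h q C A M (Tp S φ g J w D) - ff h q C A M D)
            (ff h q C A M (Tm S φ g J w D) - ff h q C A M D) (η w) =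
            dl (ff h q C A M (Tp S φ g J w D) - ff h q C A M D)
            (ff h q C A M (Tm S φ g J w D) - ff h q C A M D) (η w) := by
          rw [Finset.sum_eq_single w]
          · intro w' hw' hne
            rw [hk w' hw' hne]
            rfl
          · intro hcon; exact absurd hwW hcon
        rw [e2, e3]
        have hns := nw_single (φ := φ) hw
        have hne := hwE.2
        cases hη : η w
        · exact absurd hη hne
        · rw [hη, if_neg (by decide)] at hns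
          have := key _ η (hId w).2 (ym w).1 (ym w).2 hns
          simp only [dl]
          linarith
        · rw [hη, if_pos rfl] at hns
          have := key _ η (hId w).1 (yp w).1 (yp w).2 hns
          simp only [dl]
          linarith
      · -- two errors
        have hud : ud S φ g J h C3 m D η = Set.Iic 0 := by
          unfold ud
          rw [nw_two h0 h1]
          split_ifs <;> rfl
        rw [hud, Gcl]
        have e2 : -((A * Y + 2 * C) * ∑ w ∈ W, bad (η w)) ≤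
            ∑ w ∈ W, dl (ff h q C A M (Tp S φ g J w D) - ff h q C A M D)
            (ff h q C A M (Tm S φ g J w D) - ff h q C A M D) (η w) := by
          rw [Finset.mul_sum, ← Finset.sum_neg_distrib]
          apply Finset.sum_le_sum
          intro w _
          have b1 := (ff_bounds (A := A) (M := M) (Y := Y) hC (hq _ (hId w).1) hA (yp w).1
            (yp w).2).1
          have b2 := (ff_bounds (A := A) (M := M) (Y := Y) hC (hq _ (hId w).2) hA (ym w).1
            (ym w).2).1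
          cases η w
          · simp [bad, dl]
          · simp only [bad, dl]; linarith [bD.2]
          · simp only [bad, dl]; linarith [bD.2]
        have e3 : 2 ≤ ∑ w ∈ W, bad (η w) := by
          obtain ⟨w1, hw1⟩ := Set.nonempty_iff_ne_empty.2 h0
          obtain ⟨w2, hw2, hne⟩ : ∃ w2 ∈ Er S g J D η, w2 ≠ w1 := by
            by_contra hcon
            push Not at hcon
            apply h1
            refine ⟨w1, ?_⟩
            ext w
            exact ⟨fun hw => hcon w hw, fun hw => by rw [Set.mem_singleton_iff.1 hw]; exact hw1⟩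
          have hb : ∀ w ∈ Er S g J D η, bad (η w) = 1 := by
            intro w hw
            have := hw.2
            cases hη : η w
            · exact absurd hη this
            · rfl
            · rfl
          have hnn : ∀ w, 0 ≤ bad (η w) := by
            intro w
            cases η w <;> simp [bad]
          classical
          have hsub : ({w1, w2} : Finset G) ⊆ W := by
            intro w hw
            rw [Finset.mem_insert, Finset.mem_singleton] at hw
            rcases hw with rfl | rfl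
            · exact (hW _).2 hw1.1
            · exact (hW _).2 hw2.1
          have h5 := Finset.sum_le_sum_of_subset_of_nonneg hsub
            (f := fun w => bad (η w)) (fun w _ _ => hnn w)
          rw [Finset.sum_pair hne.symm, hb w1 hw1, hb w2 hw2] at h5
          linarith
        set N := ∑ w ∈ W, bad (η w) with hN
        have e4 : (A * Y + 2 * C) * (1 + N) ≤ 3 / 2 * (A * Y + 2 * C) * (N * (N - 1)) := by
          have : 1 + N ≤ 3 / 2 * (N * (N - 1)) := by nlinarith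
          nlinarith
        nlinarith [bcl.2, bD.1]

theorem NN_Iic : NN (Set.Iic 0) = 0 := by
  unfold NN
  have h1 : Set.Iic (0 : ℤ) ∩ Set.Ioi 0 = ∅ := by
    ext x
    simp only [Set.mem_inter_iff, Set.mem_Iic, Set.mem_Ioi, Set.mem_empty_iff_false, iff_false]
    omega
  rw [h1, Set.sdiff_self, Set.ncard_empty]
  rfl

theorem line (hI : IDEAL_S) (hC : CORR_S) : LINE_S := by
  intro G _ S k φ g J hS hL
  obtain ⟨hId, hZ, F, hF⟩ := hI G S k φ g J hS hL
  obtain ⟨h, q, C, lam, hlam, hc⟩ := hC G S k φ g J hS hL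
  have hcl := isId_Iic hL.pos
  have C0 : 0 ≤ C := (abs_nonneg _).trans (hc _ hcl).2.1
  have F0 : (0 : ℝ) ≤ F := Nat.cast_nonneg F
  obtain ⟨c0, hc0⟩ : ∃ c0 : ℝ, c0 = 3 * F + 4 * C + 1 := ⟨_, rfl⟩
  have c00 : 1 ≤ c0 := by rw [hc0]; linarith
  obtain ⟨c1, hc1⟩ : ∃ c1 : ℝ, c1 = (1 + c0) * (2 + 2 * c0 + 2 * C) + 2 * C := ⟨_, rfl⟩
  have c10 : 0 ≤ c1 := by rw [hc1]; positivity
  obtain ⟨c2, hc2⟩ : ∃ c2 : ℝ, c2 = c1 + 2 + 12 * c1 * F ^ 2 / lam + 2 / lam := ⟨_, rfl⟩
  have t1 : 0 ≤ 12 * c1 * F ^ 2 / lam := by positivity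
  have t2 : 0 ≤ 2 / lam := by positivity
  have hK : c2 ≤ (⌈c2⌉₊ : ℝ) := Nat.le_ceil _
  refine ⟨⌈c2⌉₊, Nat.ceil_pos.2 (by rw [hc2]; linarith), fun m hm => ?_⟩
  obtain ⟨K, hKdef⟩ : ∃ K : ℕ, K = ⌈c2⌉₊ := ⟨_, rfl⟩
  rw [← hKdef] at hK ⊢
  have K2 : (2 : ℝ) ≤ K := by linarith [hc2, hK]
  have Kc1 : c1 + 2 ≤ (K : ℝ) := by linarith [hc2, hK]
  have K3 : 12 * c1 * F ^ 2 ≤ K * lam := by
    rw [← div_le_iff₀ hlam]; linarith [hc2, hK]
  have K4 : 2 ≤ K * lam := by
    rw [← div_le_iff₀ hlam]; linarith [hc2, hK]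
  have m1 : (1 : ℝ) ≤ m := by exact_mod_cast hm
  obtain ⟨M, hM⟩ : ∃ M : ℝ, M = m + (2 * F + C) := ⟨_, rfl⟩
  obtain ⟨Y, hY⟩ : ∃ Y : ℝ, Y = m + c0 := ⟨_, rfl⟩
  obtain ⟨A, hA⟩ : ∃ A : ℝ, A = 2 * Y + 2 * C := ⟨_, rfl⟩
  obtain ⟨C3, hC3⟩ : ∃ C3 : ℝ, C3 = C + 1 := ⟨_, rfl⟩
  obtain ⟨M1, hM1⟩ := exists_nat_ge (C3 + C)
  obtain ⟨M0, hM0⟩ : ∃ M0 : ℤ, M0 = (m : ℤ) + 2 * F + M1 := ⟨_, rfl⟩
  have Y0 : 0 ≤ Y := by rw [hY]; linarith
  have hB : A * Y + 2 * C ≤ c1 * (m : ℝ) ^ 2 := by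
    have e1 : Y ≤ (1 + c0) * m := by rw [hY]; nlinarith
    have e2 : A ≤ (2 + 2 * c0 + 2 * C) * m := by rw [hA, hY]; nlinarith
    have e3 : 0 ≤ A := by rw [hA]; linarith
    have e4 : A * Y ≤ ((2 + 2 * c0 + 2 * C) * m) * ((1 + c0) * m) :=
      mul_le_mul e2 e1 Y0 (by positivity)
    have e5 : (1 : ℝ) ≤ (m : ℝ) ^ 2 := by nlinarith
    have e6 : 2 * C ≤ 2 * C * (m : ℝ) ^ 2 := by nlinarith
    rw [hc1]
    nlinarith
  have hcl1 := hc _ hcl
  rw [NN_Iic] at hcl1
  have hclh := abs_le.1 hcl1.1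
  push_cast at hclh
  have cl0 : 0 ≤ h (Set.Iic 0) + M := by rw [hM]; linarith [hclh.1]
  have cl1 : h (Set.Iic 0) + M ≤ Y := by rw [hM, hY, hc0]; linarith [hclh.2]
  have cl2 : h (Set.Iic 0) + 1 ≤ C3 := by rw [hC3]; linarith [hclh.2]
  have hq : ∀ D, IsId J D → |q D| ≤ C := fun D hD => (hc D hD).2.1
  have m2 : (1 : ℝ) ≤ (m : ℝ) ^ 2 := by nlinarith
  classical
  obtain ⟨Z, hZdef⟩ : ∃ Z : Finset G,
      Z = (Finset.Icc (-M0) M0 ×ˢ S).image (fun p : ℤ × G => p.1 • g + p.2) := ⟨_, rfl⟩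
  -- data of a good state
  have data : ∀ D, Good J h C3 m D → ∃ a : ℤ, -(m : ℤ) - F < a ∧ a ≤ NN D ∧
      (∀ i, (i ∈ MinC J D ∨ i ∈ MaxC J D) → |i - a| ≤ F) ∧ (NN D : ℝ) < C3 + C := by
    intro D hG
    obtain ⟨_, _, a, _, _, h3, h4, _, h6, _⟩ := hF D hG.1.1
    obtain ⟨i, hi, him⟩ := hG.2
    have := h3 i hi
    have hh := abs_le.1 (hc D hG.1.1).1
    refine ⟨a, by omega, h4, h6, by linarith [hG.1.2, hh.1]⟩
  have zone : ∀ D, Good J h C3 m D → ∀ w ∈ Zone S g J D, w ∈ Z := by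
    intro D hG w hw
    obtain ⟨a, a1, a2, a3, a4⟩ := data D hG
    obtain ⟨i, hi, hw⟩ := hw
    have h5 := abs_le.1 (a3 i hi)
    have h6 : NN D < M1 := by
      have : (NN D : ℝ) < (M1 : ℝ) := lt_of_lt_of_le a4 hM1
      exact_mod_cast this
    rw [hZdef, Finset.mem_image]
    refine ⟨(i, w - i • g), ?_, by simp⟩
    rw [Finset.mem_product, Finset.mem_Icc]
    exact ⟨⟨by simp only; omega, by simp only; omega⟩, hw⟩
  refine ⟨ud S φ g J h C3 m, Gfun J h q C A M C3 (K * (m : ℝ) ^ 2), Z, ?_, ?_, ?_, ?_⟩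
  · intro D η η' hηη
    unfold ud
    by_cases hG : Good J h C3 m D
    · rw [nw_congr (fun w hw => hηη w (zone D hG w hw))]
    · rw [if_neg (fun hcon => hG hcon.1), if_neg (fun hcon => hG hcon.1)]
  · intro D η η' Y' hle hY' i hi h1 h2
    exact ud_dom hS hL h C3 m D η η' Y' hle hY' i hi h1 h2
  · intro D
    unfold Gfun
    by_cases hD : IsId J D ∧ h D < C3
    · rw [if_pos hD]
      refine ⟨le_max_left _ _, max_le (by positivity) ?_⟩
      have y1 : h D + M ≤ Y := by rw [hM, hY, hc0]; linarith [hD.2, hC3]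
      have := ff_le (A := A) C0 (hq D hD.1) Y0 hA.ge y1
      refine this.trans (hB.trans ?_)
      exact mul_le_mul_of_nonneg_right (by linarith) (by positivity)
    · rw [if_neg hD]
      exact ⟨by positivity, le_refl _⟩
  · intro ε hε hKε D hnd
    have hKm : 2 * ε ≤ 1 := by
      have : 2 * ε ≤ K * (m : ℝ) ^ 2 * ε := by
        apply mul_le_mul_of_nonneg_right _ hε.le
        nlinarith
      linarith
    have hnd' : ∃ i ∈ D, -(m : ℤ) < i := by
      push Not at hnd
      exact hnd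
    by_cases hG : Good J h C3 m D
    · obtain ⟨a, a1, a2, a3, a4⟩ := data D hG
      obtain ⟨hfin, hcard, _, _, _, _, _, _, _, h7⟩ := hF D hG.1.1
      have hh := abs_le.1 (hc D hG.1.1).1
      have aR : -(m : ℝ) - F < NN D := by
        have : -(m : ℤ) - F < NN D := by omega
        exact_mod_cast this
      have hTp : ∀ w, 0 ≤ h (Tp S φ g J w D) + M ∧ h (Tp S φ g J w D) + M ≤ Y := by
        intro w
        have b1 := abs_le.1 (hc _ (hId D w hG.1.1).1).1
        have b2 := abs_le.1 (h7 w).1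
        have b3 : ((NN (Tp S φ g J w D) : ℤ) : ℝ) ≤ NN D + F := by
          have : NN (Tp S φ g J w D) ≤ NN D + F := by omega
          exact_mod_cast this
        have b4 : ((NN D : ℤ) : ℝ) - F ≤ NN (Tp S φ g J w D) := by
          have : NN D - F ≤ NN (Tp S φ g J w D) := by omega
          exact_mod_cast this
        rw [hM, hY, hc0]
        constructor
        · linarith [b1.1]
        · linarith [b1.2, hh.1, hG.1.2, hC3]
      have hTm : ∀ w, 0 ≤ h (Tm S φ g J w D) + M ∧ h (Tm S φ g J w D) + M ≤ Y := by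
        intro w
        have b1 := abs_le.1 (hc _ (hId D w hG.1.1).2).1
        have b2 := abs_le.1 (h7 w).2
        have b3 : ((NN (Tm S φ g J w D) : ℤ) : ℝ) ≤ NN D + F := by
          have : NN (Tm S φ g J w D) ≤ NN D + F := by omega
          exact_mod_cast this
        have b4 : ((NN D : ℤ) : ℝ) - F ≤ NN (Tm S φ g J w D) := by
          have : NN D - F ≤ NN (Tm S φ g J w D) := by omega
          exact_mod_cast this
        rw [hM, hY, hc0]
        constructor
        · linarith [b1.1]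
        · linarith [b1.2, hh.1, hG.1.2, hC3]
      have y0 : 0 ≤ h D + M := by rw [hM]; linarith [hh.1]
      have y1 : h D + M ≤ Y := by rw [hM, hY, hc0]; linarith [hG.1.2, hC3]
      have hW : ∀ w, w ∈ hfin.toFinset ↔ w ∈ Zone S g J D := fun w => Set.Finite.mem_toFinset hfin
      have hdr := drift (Z := Z) (W := hfin.toFinset) (V := K * (m : ℝ) ^ 2) (ε := ε) (A := A)
        hL.pos hG (fun w => hId D w hG.1.1) hq C0 hA.ge y0 y1 hTp hTm cl0 cl1 cl2
        (fun w hw => hZ D w hw) hW (fun w hw => zone D hG w ((hW w).1 hw))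
        (hc D hG.1.1).2.2.1 (hc D hG.1.1).2.2.2 hε.le (by linarith)
      have hfD := ff_bounds (A := A) (M := M) (Y := Y) C0 (hq D hG.1.1) hA.ge y0 y1
      rw [Gfun_eq hG.1.1 hG.1.2 hfD.1]
      refine hdr.trans ?_
      have hn : (hfin.toFinset.card : ℝ) ≤ F := by
        rw [← Set.ncard_eq_toFinset_card _ hfin]
        exact_mod_cast hcard
      have hn0 : (0 : ℝ) ≤ hfin.toFinset.card := Nat.cast_nonneg _
      have hn2 : (hfin.toFinset.card : ℝ) ^ 2 ≤ F ^ 2 := pow_le_pow_left₀ hn0 hn 2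
      have hBB : 0 ≤ A * Y + 2 * C := hfD.1.trans hfD.2
      have r1 : 3 / 2 * (A * Y + 2 * C) * ((hfin.toFinset.card : ℝ) ^ 2 * (4 * ε ^ 2)) ≤
          6 * (c1 * (m : ℝ) ^ 2) * (F ^ 2 * ε ^ 2) := by
        have s1 : (hfin.toFinset.card : ℝ) ^ 2 * (4 * ε ^ 2) ≤ F ^ 2 * (4 * ε ^ 2) :=
          mul_le_mul_of_nonneg_right hn2 (by positivity)
        have s2 : 3 / 2 * (A * Y + 2 * C) * ((hfin.toFinset.card : ℝ) ^ 2 * (4 * ε ^ 2)) ≤
            3 / 2 * (c1 * (m : ℝ) ^ 2) * (F ^ 2 * (4 * ε ^ 2)) :=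
          mul_le_mul (by linarith) s1 (by positivity) (by positivity)
        refine s2.trans (le_of_eq ?_)
        ring
      have r2 : 6 * (c1 * (m : ℝ) ^ 2) * (F ^ 2 * ε ^ 2) ≤ ε * lam / 2 := by
        have s1 : 6 * (c1 * (m : ℝ) ^ 2) * (F ^ 2 * ε ^ 2) =
            (12 * c1 * F ^ 2) * ((m : ℝ) ^ 2 * ε) * (ε / 2) := by ring
        rw [s1]
        have s2 : (12 * c1 * F ^ 2) * ((m : ℝ) ^ 2 * ε) ≤ lam := by
          have s3 : (12 * c1 * F ^ 2) * ((m : ℝ) ^ 2 * ε) ≤ (K * lam) * ((m : ℝ) ^ 2 * ε) :=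
            mul_le_mul_of_nonneg_right K3 (by positivity)
          have s4 : (K * lam) * ((m : ℝ) ^ 2 * ε) = lam * (K * (m : ℝ) ^ 2 * ε) := by ring
          rw [s4] at s3
          nlinarith
        nlinarith
      have r3 : ε / K ≤ ε * lam / 2 := by
        rw [div_le_iff₀ (by linarith : (0 : ℝ) < K)]
        nlinarith
      linarith
    · have hD : ¬ (IsId J D ∧ h D < C3) := fun hcon => hG ⟨hcon, hnd'⟩
      have e1 : (fun η => Gfun J h q C A M C3 (K * (m : ℝ) ^ 2) (ud S φ g J h C3 m D η)) =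
          fun _ => ff h q C A M (Set.Iic 0) := by
        funext η
        have : ud S φ g J h C3 m D η = Set.Iic 0 := by
          unfold ud
          rw [if_neg (fun hcon => hG hcon.1)]
        rw [this]
        exact Gfun_eq hcl (by linarith)
          (ff_bounds (A := A) (M := M) (Y := Y) C0 (hq _ hcl) hA.ge cl0 cl1).1
      rw [e1, ex_const]
      have e2 := (ff_bounds (A := A) (M := M) (Y := Y) C0 (hq _ hcl) hA.ge cl0 cl1).2
      have e3 : Gfun J h q C A M C3 (K * (m : ℝ) ^ 2) D = K * (m : ℝ) ^ 2 := by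
        unfold Gfun
        rw [if_neg hD]
      rw [e3]
      have e4 : ε / K ≤ 1 := by
        rw [div_le_iff₀ (by linarith : (0 : ℝ) < K)]
        linarith
      nlinarith

end Pool.Agent.Lib.MP_fdcb14_pr.H65
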