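import Pool.Agent.Lib.MP_fdcb14_pr.W.Interfaces

/-!
# Module LINE, part A: finite expectations
-/

namespace Pool.Agent.Lib.MP_fdcb14_pr.H65

open Pool.Agent.Lib.MP_fdcb14_pr Finset

variable {G : Type*}

theorem pr_nonneg {ε : ℝ} (h0 : 0 ≤ ε) (h1 : ε ≤ 1 / 2) (x : Err) : 0 ≤ pr ε x := by
  cases x <;> simp only [pr] <;> linarith

theorem sum_err (f : Err → ℝ) : ∑ x, f x = f Err.keep + f Err.zero + f Err.one := by
  have h : (Finset.univ : Finset Err) = {Err.keep, Err.zero, Err.one} := rfl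
  rw [h, sum_insert (by decide), sum_insert (by decide), sum_singleton, add_assoc]

theorem ex_mono {ε : ℝ} (h0 : 0 ≤ ε) (h1 : ε ≤ 1 / 2) (Z : Finset G) {f g : (G → Err) → ℝ}
    (h : ∀ η, f η ≤ g η) : Ex ε Z f ≤ Ex ε Z g := by
  unfold Ex
  apply sum_le_sum
  intro e _
  exact mul_le_mul_of_nonneg_left (h _) (prod_nonneg fun v _ => pr_nonneg h0 h1 _)

theorem ex_add (ε : ℝ) (Z : Finset G) (f g : (G → Err) → ℝ) :
    Ex ε Z (fun η => f η + g η) = Ex ε Z f + Ex ε Z g := by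
  unfold Ex
  rw [← sum_add_distrib]
  exact sum_congr rfl fun e _ => mul_add _ _ _

theorem ex_mul (ε : ℝ) (Z : Finset G) (c : ℝ) (f : (G → Err) → ℝ) :
    Ex ε Z (fun η => c * f η) = c * Ex ε Z f := by
  unfold Ex
  rw [mul_sum]
  exact sum_congr rfl fun e _ => by ring

theorem ex_sum {ι : Type*} (ε : ℝ) (Z : Finset G) (s : Finset ι) (f : ι → (G → Err) → ℝ) :
    Ex ε Z (fun η => ∑ i ∈ s, f i η) = ∑ i ∈ s, Ex ε Z (f i) := by
  unfold Ex
  rw [sum_comm]
  exact sum_congr rfl fun e _ => mul_sum _ _ _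

open Classical in
theorem ex_prod (ε : ℝ) (Z : Finset G) (u : G → Err → ℝ) :
    Ex ε Z (fun η => ∏ v ∈ Z, u v (η v)) = ∏ v ∈ Z, ∑ x, pr ε x * u v x := by
  unfold Ex
  rw [← prod_coe_sort Z (fun v => ∑ x, pr ε x * u v x)]
  have h := Finset.prod_univ_sum (fun _ : Z => (univ : Finset Err)) (fun v x => pr ε x * u v x)
  rw [h, Fintype.piFinset_univ]
  apply sum_congr rfl
  intro e _
  rw [prod_mul_distrib]
  congr 1
  change (∏ v ∈ Z, u v (ext Z e v)) = _
  rw [← prod_coe_sort Z (fun v => u v (ext Z e v))]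
  apply prod_congr rfl
  intro v _
  simp [ext]

theorem sum_pr (ε : ℝ) : ∑ x, pr ε x = 1 := by
  rw [sum_err]
  simp only [pr]
  ring

theorem ex_one (ε : ℝ) (Z : Finset G) : Ex ε Z (fun _ => 1) = 1 := by
  have h := ex_prod ε Z (fun _ _ => 1)
  simp only [prod_const_one, mul_one, sum_pr] at h
  exact h

theorem ex_const (ε : ℝ) (Z : Finset G) (c : ℝ) : Ex ε Z (fun _ => c) = c := by
  have h := ex_mul ε Z c (fun _ => 1)
  rw [ex_one, mul_one] at h
  simpa using h

open Classical in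
theorem ex_single (ε : ℝ) (Z : Finset G) {w : G} (hw : w ∈ Z) (δ : Err → ℝ) :
    Ex ε Z (fun η => δ (η w)) = ∑ x, pr ε x * δ x := by
  have h := ex_prod ε Z (fun v x => if v = w then δ x else 1)
  have h1 : ∀ η : G → Err, (∏ v ∈ Z, if v = w then δ (η v) else 1) = δ (η w) := by
    intro η
    rw [prod_ite_eq' Z w (fun v => δ (η v)), if_pos hw]
  have h2 : (∏ v ∈ Z, ∑ x, pr ε x * (if v = w then δ x else 1)) = ∑ x, pr ε x * δ x := by
    rw [prod_eq_single w]
    · simp
    · intro v _ hv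
      simp only [if_neg hv, mul_one, sum_pr]
    · intro h; exact absurd hw h
  simp only [h1, h2] at h
  exact h

/-- the indicator of an error -/
noncomputable def bad : Err → ℝ
  | Err.keep => 0
  | Err.zero => 1
  | Err.one => 1

theorem sum_pr_bad (ε : ℝ) : ∑ x, pr ε x * bad x = 2 * ε := by
  rw [sum_err]
  simp only [pr, bad]
  ring

open Classical in
theorem ex_pair (ε : ℝ) (Z : Finset G) {w w' : G} (hw : w ∈ Z) (hw' : w' ∈ Z) (hne : w ≠ w') :
    Ex ε Z (fun η => bad (η w) * bad (η w')) = (2 * ε) ^ 2 := by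
  have h := ex_prod ε Z (fun v x => (if v = w then bad x else 1) * (if v = w' then bad x else 1))
  have h1 : ∀ η : G → Err, (∏ v ∈ Z, (if v = w then bad (η v) else 1) *
      (if v = w' then bad (η v) else 1)) = bad (η w) * bad (η w') := by
    intro η
    rw [prod_mul_distrib, prod_ite_eq' Z w (fun v => bad (η v)), if_pos hw,
      prod_ite_eq' Z w' (fun v => bad (η v)), if_pos hw']
  have h2 : (∏ v ∈ Z, ∑ x, pr ε x * ((if v = w then bad x else 1) *
      (if v = w' then bad x else 1))) = (2 * ε) ^ 2 := by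
    have h3 : ∀ v ∈ Z, ∑ x, pr ε x * ((if v = w then bad x else 1) *
        (if v = w' then bad x else 1)) =
        (if v = w then 2 * ε else 1) * (if v = w' then 2 * ε else 1) := by
      intro v _
      by_cases hv : v = w
      · have hv' : v ≠ w' := by rw [hv]; exact hne
        simp only [hv, if_true, if_neg (hv ▸ hv' : w ≠ w'), mul_one, sum_pr_bad]
      · by_cases hv' : v = w'
        · simp only [if_neg hv, if_pos hv', one_mul, sum_pr_bad]
        · simp only [if_neg hv, if_neg hv', mul_one, sum_pr]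
    rw [prod_congr rfl h3, prod_mul_distrib, prod_ite_eq' Z w (fun _ => 2 * ε), if_pos hw,
      prod_ite_eq' Z w' (fun _ => 2 * ε), if_pos hw']
    ring
  simp only [h1, h2] at h
  exact h

/-- the effect of an error -/
noncomputable def dl (dp dm : ℝ) : Err → ℝ
  | Err.keep => 0
  | Err.zero => dm
  | Err.one => dp

/-- The main estimate: a function of the noise that is at most
`c + ∑ δ_w(η w) + B N (N - 1)`, where `N` is the number of errors in `W`. -/
theorem ex_le {ε : ℝ} (h0 : 0 ≤ ε) (h1 : ε ≤ 1 / 2) (Z W : Finset G) (hWZ : W ⊆ Z) (c B : ℝ)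
    (hB : 0 ≤ B) (dp dm : G → ℝ) (f : (G → Err) → ℝ)
    (hf : ∀ η, f η ≤ c + ∑ w ∈ W, dl (dp w) (dm w) (η w) +
      B * ((∑ w ∈ W, bad (η w)) * ((∑ w ∈ W, bad (η w)) - 1))) :
    Ex ε Z f ≤ c + ε * ∑ w ∈ W, (dp w + dm w) + B * ((W.card : ℝ) ^ 2 * (4 * ε ^ 2)) := by
  classical
  set δ : G → Err → ℝ := fun w x => dl (dp w) (dm w) x with hδ
  have hN : ∀ η : G → Err, (∑ w ∈ W, bad (η w)) * ((∑ w ∈ W, bad (η w)) - 1) =
      ∑ w ∈ W, ∑ w' ∈ W.erase w, bad (η w) * bad (η w') := by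
    intro η
    rw [sum_mul]
    apply sum_congr rfl
    intro w hw
    rw [← mul_sum]
    have h2 : ∑ w' ∈ W, bad (η w') = bad (η w) + ∑ w' ∈ W.erase w, bad (η w') :=
      (add_sum_erase W (fun w' => bad (η w')) hw).symm
    rw [h2]
    have h3 : bad (η w) * bad (η w) = bad (η w) := by cases η w <;> simp [bad]
    have : bad (η w) * (bad (η w) + ∑ w' ∈ W.erase w, bad (η w') - 1) =
        bad (η w) * bad (η w) - bad (η w) + bad (η w) * ∑ w' ∈ W.erase w, bad (η w') := by ring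
    rw [this, h3]; ring
  have hle : Ex ε Z f ≤ Ex ε Z (fun η => c + ∑ w ∈ W, δ w (η w) +
      B * ∑ w ∈ W, ∑ w' ∈ W.erase w, bad (η w) * bad (η w')) := by
    apply ex_mono h0 h1
    intro η
    rw [← hN η]
    exact hf η
  refine hle.trans ?_
  have e1 : Ex ε Z (fun η => c + ∑ w ∈ W, δ w (η w) +
      B * ∑ w ∈ W, ∑ w' ∈ W.erase w, bad (η w) * bad (η w')) =
      c + ∑ w ∈ W, ε * (dp w + dm w) + B * ∑ w ∈ W, ∑ w' ∈ W.erase w, (2 * ε) ^ 2 := by
    rw [ex_add ε Z (fun η => c + ∑ w ∈ W, δ w (η w)), ex_add ε Z (fun _ => c), ex_const,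
      ex_mul, ex_sum ε Z W, ex_sum ε Z W]
    congr 1
    · congr 1
      apply sum_congr rfl
      intro w hw
      rw [ex_single ε Z (hWZ hw) (δ w), sum_err]
      simp only [hδ, pr, dl]
      ring
    · congr 1
      apply sum_congr rfl
      intro w hw
      rw [ex_sum ε Z (W.erase w)]
      apply sum_congr rfl
      intro w' hw'
      exact ex_pair ε Z (hWZ hw) (hWZ (mem_of_mem_erase hw')) (ne_of_mem_erase hw').symm
  rw [e1, ← mul_sum]
  have h4 : ∑ w ∈ W, ∑ w' ∈ W.erase w, (2 * ε) ^ 2 ≤ (W.card : ℝ) ^ 2 * (4 * ε ^ 2) := by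
    have h5 : ∀ w ∈ W, ∑ w' ∈ W.erase w, (2 * ε) ^ 2 ≤ (W.card : ℝ) * (4 * ε ^ 2) := by
      intro w _
      rw [sum_const, nsmul_eq_mul]
      have h6 : ((W.erase w).card : ℝ) ≤ W.card := by exact_mod_cast card_erase_le
      have h7 : (2 * ε) ^ 2 = 4 * ε ^ 2 := by ring
      rw [h7]
      exact mul_le_mul_of_nonneg_right h6 (by positivity)
    refine (sum_le_sum h5).trans ?_
    rw [sum_const, nsmul_eq_mul]
    apply le_of_eq; ring
  have h8 := mul_le_mul_of_nonneg_left h4 hB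
  linarith

end Pool.Agent.Lib.MP_fdcb14_pr.H65
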